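import Pool.Agent.Run7.h635.GEN.Stm
import Pool.Agent.Run7.h635.OD.Eis
import Pool.Agent.Run7.h600.OD.Theta

/-! `q`-expansions of modular forms on arithmetic groups are algebraic over `ℂ(u, w)`. -/

set_option autoImplicit false

open PowerSeries

namespace Run7.h333.GEN

open H635.GEN H809.OD MatrixGroups UpperHalfPlane ModularForm Run7.h635.OD

/-- the cusp function is analytic at `0` -/
def An (f : ℍ → ℂ) : Prop := AnalyticAt ℂ (cuspFunction 1 f) 0

lemma an_mul {f g : ℍ → ℂ} (hf : An f) (hg : An g) : An (f * g) := by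
  unfold An
  rw [cuspFunction_mul hf.continuousAt hg.continuousAt]
  exact AnalyticAt.mul hf hg

lemma an_add {f g : ℍ → ℂ} (hf : An f) (hg : An g) : An (f + g) := by
  unfold An
  rw [cuspFunction_add hf.continuousAt hg.continuousAt]
  exact AnalyticAt.add hf hg

lemma an_smul {f : ℍ → ℂ} (hf : An f) (c : ℂ) : An (c • f) := by
  unfold An
  rw [cuspFunction_smul hf.continuousAt]
  exact AnalyticAt.const_smul hf

lemma cusp_one : cuspFunction 1 (1 : ℍ → ℂ) = 1 := by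
  ext q
  rcases eq_or_ne q 0 with rfl | hq
  · simpa [cuspFunction, Function.Periodic.cuspFunction] using! tendsto_const_nhds.limUnder_eq
  · simp [cuspFunction, Function.Periodic.cuspFunction_eq_of_nonzero 1 _ hq]

lemma an_one : An 1 := by
  unfold An
  rw [cusp_one]
  exact analyticAt_const

lemma an_zero : An 0 := by
  have h := an_smul an_one 0
  rwa [zero_smul] at h

lemma an_pow {f : ℍ → ℂ} (hf : An f) (n : ℕ) : An (f ^ n) := by
  induction n with
  | zero => rw [pow_zero]; exact an_one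
  | succ n ih => rw [pow_succ]; exact an_mul ih hf

lemma qe_pow {f : ℍ → ℂ} (hf : An f) (n : ℕ) : qExpansion 1 (f ^ n) = qExpansion 1 f ^ n := by
  induction n with
  | zero => rw [pow_zero, pow_zero]; exact qExpansion_one 1
  | succ n ih => rw [pow_succ, qExpansion_mul (an_pow hf n) hf, ih, pow_succ]

lemma an_sum {ι : Type*} (s : Finset ι) (f : ι → ℍ → ℂ) (hf : ∀ i ∈ s, An (f i)) :
    An (∑ i ∈ s, f i) := by
  classical
  induction s using Finset.induction_on with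
  | empty => rw [Finset.sum_empty]; exact an_zero
  | insert a s ha ih =>
    rw [Finset.sum_insert ha]
    exact an_add (hf a (Finset.mem_insert_self a s))
      (ih fun i hi => hf i (Finset.mem_insert_of_mem hi))

lemma qe_sum {ι : Type*} (s : Finset ι) (f : ι → ℍ → ℂ) (hf : ∀ i ∈ s, An (f i)) :
    qExpansion 1 (∑ i ∈ s, f i) = ∑ i ∈ s, qExpansion 1 (f i) := by
  classical
  induction s using Finset.induction_on with
  | empty => rw [Finset.sum_empty, Finset.sum_empty]; exact qExpansion_zero 1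
  | insert a s ha ih =>
    rw [Finset.sum_insert ha, Finset.sum_insert ha,
      qExpansion_add (hf a (Finset.mem_insert_self a s))
        (an_sum s f fun i hi => hf i (Finset.mem_insert_of_mem hi)),
      ih fun i hi => hf i (Finset.mem_insert_of_mem hi)]

/-- elements of `TH n` are `w ^ n p(u)` -/
lemma TH_poly (ht : Theta) {n : ℕ} {F : ℂ⟦X⟧} (hF : F ∈ TH n) : ∃ p : Polynomial ℂ,
    F = upc w ^ n * Polynomial.aeval (upc u) p := by
  unfold TH at hF
  induction hF using Submodule.span_induction with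
  | mem F hF =>
    obtain ⟨i, rfl⟩ := hF
    refine ⟨(1 - 8 * Polynomial.X) ^ (i : ℕ), ?_⟩
    dsimp only
    rw [tm_eq ht n i (Nat.lt_succ_iff.1 i.2), map_mul, map_pow]
    congr 1
    rw [map_pow, map_pow, map_pow, map_sub, map_sub, map_sub, map_mul, map_mul, map_mul,
      Polynomial.aeval_X, Polynomial.aeval_X, map_one, map_one, map_one, map_ofNat, map_ofNat,
      map_ofNat]
  | zero => exact ⟨0, by rw [map_zero, mul_zero]⟩
  | add x y _ _ hx hy =>
    obtain ⟨p, hp⟩ := hx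
    obtain ⟨r, hr⟩ := hy
    exact ⟨p + r, by rw [hp, hr, map_add, mul_add]⟩
  | smul c x _ hx =>
    obtain ⟨p, hp⟩ := hx
    exact ⟨c • p, by rw [hp, map_smul, mul_smul_comm]⟩

/-- the restriction of a form to the intersection with the modular group -/
noncomputable def res (𝒢 : Subgroup (GL (Fin 2) ℝ)) {k : ℤ} (f : ModularForm 𝒢 k) :
    ModularForm (𝒢 ⊓ 𝒮ℒ) k where
  toFun := f
  holo' := f.holo'
  bdd_at_cusps' hc := f.bdd_at_cusps' (hc.mono inf_le_left)
  slash_action_eq' γ hγ := f.slash_action_eq' γ hγ.1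

/-- the restriction of a level one form -/
noncomputable def resL (𝒢 : Subgroup (GL (Fin 2) ℝ)) {k : ℤ} (f : ModularForm 𝒮ℒ k) :
    ModularForm (𝒢 ⊓ 𝒮ℒ) k where
  toFun := f
  holo' := f.holo'
  bdd_at_cusps' hc := f.bdd_at_cusps' (hc.mono inf_le_right)
  slash_action_eq' γ hγ := f.slash_action_eq' γ hγ.2

open SlashInvariantForm in
lemma qf_sub {𝒦 : Subgroup (GL (Fin 2) ℝ)} [𝒦.HasDetOne] {m : ℤ} (g D' : ModularForm 𝒦 m) (D : ModularForm 𝒮ℒ m)
    (hD' : ∀ τ, D' τ = D τ) (t : ℂ) (q : 𝒮ℒ ⧸ (𝒦.subgroupOf 𝒮ℒ)) (τ : ℍ) :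
    quotientFunc (g - t • D') q τ = quotientFunc g q τ - t * D τ := by
  have hDD : (⇑D' : ℍ → ℂ) = ⇑D := funext hD'
  induction q using Quotient.inductionOn with
  | h r =>
    rw [quotientFunc_mk, quotientFunc_mk]
    have e : (⇑(g - t • D') : ℍ → ℂ) = ⇑g - t • ⇑D := by
      rw [← hDD]
      rfl
    rw [e]
    obtain ⟨r0, hr0⟩ := r.2
    have e2 : (⇑g - t • ⇑D) ∣[m] (r : GL (Fin 2) ℝ)⁻¹ =
        (⇑g ∣[m] (r : GL (Fin 2) ℝ)⁻¹) - t • (⇑D ∣[m] (r : GL (Fin 2) ℝ)⁻¹) := by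
      rw [← hr0, ← map_inv]
      rw [sub_eq_add_neg, SlashAction.add_slash, SlashAction.neg_slash, sub_eq_add_neg]
      congr 2
      rw [ModularForm.smul_slash]
      congr 1
      simp [σ]
    rw [e2, SlashInvariantFormClass.slash_action_eq D _ (inv_mem r.2)]
    rfl

open SlashInvariantForm in
/-- the polynomial `∏ (g_q - T D)` -/
noncomputable def PP {𝒦 : Subgroup (GL (Fin 2) ℝ)} {m : ℤ} (g : ModularForm 𝒦 m)
    (D : ModularForm 𝒮ℒ m) [Fintype (𝒮ℒ ⧸ (𝒦.subgroupOf 𝒮ℒ))] (τ : ℍ) : Polynomial ℂ :=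
  ∏ q : 𝒮ℒ ⧸ (𝒦.subgroupOf 𝒮ℒ), (Polynomial.C (quotientFunc g q τ) -
    Polynomial.C (D τ) * Polynomial.X)

lemma lin_deg (a b : ℂ) : (Polynomial.C a - Polynomial.C b * Polynomial.X).natDegree ≤ 1 := by
  compute_degree

lemma PP_deg {𝒦 : Subgroup (GL (Fin 2) ℝ)} {m : ℤ} (g : ModularForm 𝒦 m)
    (D : ModularForm 𝒮ℒ m) [Fintype (𝒮ℒ ⧸ (𝒦.subgroupOf 𝒮ℒ))] (τ : ℍ) :
    (PP g D τ).natDegree ≤ Fintype.card (𝒮ℒ ⧸ (𝒦.subgroupOf 𝒮ℒ)) := by
  unfold PP
  refine (Polynomial.natDegree_prod_le _ _).trans ?_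
  refine (Finset.sum_le_card_nsmul _ _ 1 fun q _ => lin_deg _ _).trans ?_
  rw [smul_eq_mul, mul_one, Finset.card_univ]

lemma PP_coeff {𝒦 : Subgroup (GL (Fin 2) ℝ)} {m : ℤ} (g : ModularForm 𝒦 m)
    (D : ModularForm 𝒮ℒ m) [Fintype (𝒮ℒ ⧸ (𝒦.subgroupOf 𝒮ℒ))] (τ : ℍ) :
    (PP g D τ).coeff (Fintype.card (𝒮ℒ ⧸ (𝒦.subgroupOf 𝒮ℒ))) =
      (-D τ) ^ Fintype.card (𝒮ℒ ⧸ (𝒦.subgroupOf 𝒮ℒ)) := by
  have h := Polynomial.coeff_prod_of_natDegree_le (s := (Finset.univ : Finset (𝒮ℒ ⧸ (𝒦.subgroupOf 𝒮ℒ))))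
    (f := fun q => Polynomial.C (SlashInvariantForm.quotientFunc g q τ) -
    Polynomial.C (D τ) * Polynomial.X) 1 (fun q _ => lin_deg _ _)
  rw [mul_one, Finset.card_univ] at h
  unfold PP
  rw [h]
  have e : ∀ q : 𝒮ℒ ⧸ (𝒦.subgroupOf 𝒮ℒ), (Polynomial.C (SlashInvariantForm.quotientFunc g q τ) -
    Polynomial.C (D τ) * Polynomial.X).coeff 1 = -D τ := by
    intro q
    rw [Polynomial.coeff_sub, Polynomial.coeff_C_succ, Polynomial.coeff_C_mul,
      Polynomial.coeff_X_one, mul_one, zero_sub]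
  rw [Finset.prod_congr rfl fun q _ => e q, Finset.prod_const, Finset.card_univ]

open SlashInvariantForm in
lemma PP_eval {𝒦 : Subgroup (GL (Fin 2) ℝ)} [𝒦.HasDetOne] [𝒦.IsFiniteRelIndex 𝒮ℒ] {m : ℤ}
    (g D' : ModularForm 𝒦 m)
    (D : ModularForm 𝒮ℒ m) (hD' : ∀ τ, D' τ = D τ)
    [Fintype (𝒮ℒ ⧸ (𝒦.subgroupOf 𝒮ℒ))] (τ : ℍ) (t : ℂ) :
    (PP g D τ).eval t = ModularForm.norm 𝒮ℒ (g - t • D') τ := by
  unfold PP
  rw [Polynomial.eval_prod, ModularForm.coe_norm, Finset.prod_apply]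
  refine Finset.prod_congr ?_ fun q _ => ?_
  · ext; simp
  · rw [qf_sub g D' D hD', Polynomial.eval_sub, Polynomial.eval_mul, Polynomial.eval_C,
      Polynomial.eval_C, Polynomial.eval_X, mul_comm t]

open SlashInvariantForm in
lemma PP_root {𝒦 : Subgroup (GL (Fin 2) ℝ)} {m : ℤ} (g : ModularForm 𝒦 m)
    (D : ModularForm 𝒮ℒ m) (hD : ∀ τ, D τ ≠ 0)
    [Fintype (𝒮ℒ ⧸ (𝒦.subgroupOf 𝒮ℒ))] (τ : ℍ) :
    (PP g D τ).eval (g τ / D τ) = 0 := by
  unfold PP
  rw [Polynomial.eval_prod]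
  refine Finset.prod_eq_zero (Finset.mem_univ (⟦1⟧ : 𝒮ℒ ⧸ (𝒦.subgroupOf 𝒮ℒ))) ?_
  rw [Polynomial.eval_sub, Polynomial.eval_mul, Polynomial.eval_C,
      Polynomial.eval_C, Polynomial.eval_X, quotientFunc_mk, mul_div_cancel₀ _ (hD τ)]
  have e : ((1 : 𝒮ℒ) : GL (Fin 2) ℝ)⁻¹ = 1 := by
    rw [Subgroup.coe_one, inv_one]
  rw [e, SlashAction.slash_one, sub_self]

/-- **the relation** -/
theorem core {𝒦 : Subgroup (GL (Fin 2) ℝ)} [𝒦.HasDetOne] [𝒦.IsFiniteRelIndex 𝒮ℒ] {m : ℤ}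
    (g D' : ModularForm 𝒦 m) (D : ModularForm 𝒮ℒ m) (hD' : ∀ τ, D' τ = D τ) (hD : ∀ τ, D τ ≠ 0) :
    ∃ (d : ℕ) (M : ℕ → ModularForm 𝒮ℒ (m * d)),
      (∑ s ∈ Finset.range (d + 1), (M s : ℍ → ℂ) * (g : ℍ → ℂ) ^ s * (D : ℍ → ℂ) ^ (d - s) = 0) ∧
      (M d : ℍ → ℂ) = (-1 : ℂ) ^ d • (D : ℍ → ℂ) ^ d := by
  classical
  let _ := Fintype.ofFinite (𝒮ℒ ⧸ (𝒦.subgroupOf 𝒮ℒ))
  have hcard : Nat.card (𝒮ℒ ⧸ (𝒦.subgroupOf 𝒮ℒ)) = Fintype.card (𝒮ℒ ⧸ (𝒦.subgroupOf 𝒮ℒ)) :=
    Nat.card_eq_fintype_card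
  set d := Nat.card (𝒮ℒ ⧸ (𝒦.subgroupOf 𝒮ℒ)) with hd
  let N : ℕ → ModularForm 𝒮ℒ (m * d) := fun i => ModularForm.norm 𝒮ℒ (g - (i : ℂ) • D')
  let v : ℕ → ℂ := fun i => (i : ℂ)
  have hv : Set.InjOn v (Finset.range (d + 1) : Set ℕ) := fun a _ b _ h => Nat.cast_injective h
  let M : ℕ → ModularForm 𝒮ℒ (m * d) := fun s =>
    ∑ i ∈ Finset.range (d + 1), (Lagrange.basis (Finset.range (d + 1)) v i).coeff s • N i
  have hdeg : ∀ τ, (PP g D τ).natDegree ≤ d := fun τ => (PP_deg g D τ).trans hcard.ge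
  have hM : ∀ s τ, M s τ = (PP g D τ).coeff s := by
    intro s τ
    have h1 : PP g D τ = Lagrange.interpolate (Finset.range (d + 1)) v
        (fun i => ModularForm.norm 𝒮ℒ (g - (i : ℂ) • D') τ) := by
      refine Lagrange.eq_interpolate_of_eval_eq _ hv ?_ ?_
      · rw [Finset.card_range]
        refine lt_of_le_of_lt Polynomial.degree_le_natDegree ?_
        exact_mod_cast Nat.lt_succ_of_le (hdeg τ)
      · intro i _
        exact PP_eval g D' D hD' τ _
    rw [h1, Lagrange.interpolate_apply, Polynomial.finsetSum_coeff]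
    have h2 : (M s : ℍ → ℂ) = ∑ i ∈ Finset.range (d + 1),
        (Lagrange.basis (Finset.range (d + 1)) v i).coeff s • (N i : ℍ → ℂ) := by
      let co : ModularForm 𝒮ℒ (m * d) →+ (ℍ → ℂ) :=
        { toFun := fun f => (f : ℍ → ℂ), map_zero' := rfl, map_add' := fun _ _ => rfl }
      exact map_sum co
        (fun i => (Lagrange.basis (Finset.range (d + 1)) v i).coeff s • N i) (Finset.range (d + 1))
    rw [h2, Finset.sum_apply]
    refine Finset.sum_congr rfl fun i _ => ?_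
    rw [Pi.smul_apply, Polynomial.coeff_C_mul, smul_eq_mul, mul_comm]
  refine ⟨d, M, ?_, ?_⟩
  · ext τ
    have h := PP_root g D hD τ
    rw [Polynomial.eval_eq_sum_range' (Nat.lt_succ_of_le (hdeg τ))] at h
    rw [Finset.sum_apply]
    have e : ∀ s ∈ Finset.range (d + 1), ((M s : ℍ → ℂ) * (g : ℍ → ℂ) ^ s *
        (D : ℍ → ℂ) ^ (d - s)) τ = D τ ^ d * ((PP g D τ).coeff s * (g τ / D τ) ^ s) := by
      intro s hs
      rw [Pi.mul_apply, Pi.mul_apply, Pi.pow_apply, Pi.pow_apply, hM, div_pow]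
      have e3 : D τ ^ d = D τ ^ (d - s) * D τ ^ s := by
        rw [← pow_add]
        congr 1
        have := Finset.mem_range.1 hs
        omega
      rw [e3]
      have := hD τ
      field_simp
    rw [Finset.sum_congr rfl e, ← Finset.mul_sum, h, mul_zero, Pi.zero_apply]
  · ext τ
    rw [hM, Pi.smul_apply, Pi.pow_apply, smul_eq_mul, ← mul_pow, neg_one_mul]
    have h := PP_coeff g D τ
    rw [← hcard] at h
    exact h

/-- **ALG**: `q`-expansions of modular forms are algebraic over `ℂ(u, w)`. -/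
theorem alg : S_Alg := by
  intro 𝒢 _ h1 k f
  have ht : Theta := theta_holds
  have he : S_Eis := Eis.eis
  have hW1 : upc w * upc wi = 1 := by
    rw [← map_mul, wi, PowerSeries.mul_inv_cancel, map_one]
    rw [← coeff_zero_eq_constantCoeff_apply, ht.w_zero]
    exact one_ne_zero
  have hW0 : upc w ≠ 0 := left_ne_zero_of_mul_eq_one hW1
  -- the forms
  let g : ModularForm (𝒢 ⊓ 𝒮ℒ) ((12 * k : ℕ) : ℤ) :=
    mcast (by push_cast; ring) ((res 𝒢 f).pow 12)
  let D : ModularForm 𝒮ℒ ((12 * k : ℕ) : ℤ) := mcast (by push_cast; ring)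
    (ModularForm.pow (ModularFormClass.modularForm (CuspForm.discriminant)) k)
  have hgf : (g : ℍ → ℂ) = (f : ℍ → ℂ) ^ 12 := ModularForm.coe_pow (res 𝒢 f) 12
  have hDf : (D : ℍ → ℂ) = discriminant ^ k :=
    ModularForm.coe_pow (ModularFormClass.modularForm (CuspForm.discriminant)) k
  obtain ⟨d, M, hM1, hM2⟩ := core g (resL 𝒢 D) D (fun _ => rfl) (by
    intro τ
    rw [hDf, Pi.pow_apply]
    exact pow_ne_zero _ (discriminant_ne_zero τ))
  have hf : An f := ModularFormClass.analyticAt_cuspFunction_zero f one_pos h1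
  have hDel : An discriminant :=
    ModularFormClass.analyticAt_cuspFunction_zero CuspForm.discriminant one_pos
      one_mem_strictPeriods_SL
  have hMa : ∀ s, An (M s) := fun s =>
    ModularFormClass.analyticAt_cuspFunction_zero (M s) one_pos one_mem_strictPeriods_SL
  rw [hgf, hDf] at hM1
  rw [hDf] at hM2
  -- polynomials
  have hMp : ∀ s, ∃ p : Polynomial ℂ, qExpansion 1 (M s) =
      upc w ^ (12 * k * d) * Polynomial.aeval (upc u) p := fun s =>
    TH_poly ht (struct ht he (12 * k * d) (mcast (by push_cast; ring) (M s)))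
  choose p hp using hMp
  obtain ⟨δ, hδ⟩ := TH_poly ht (disc_mem ht)
  have hD0 : qExpansion 1 discriminant ≠ 0 := by
    intro h
    have h2 := discriminant_qExpansion_coeff_one
    rw [h] at h2
    simp at h2
  have hpd : p d ≠ 0 := by
    intro h
    have h2 := hp d
    rw [h, map_zero, mul_zero, hM2, qExpansion_smul (an_pow (an_pow hDel k) d),
      qe_pow (an_pow hDel k), qe_pow hDel, smul_eq_C_mul] at h2
    have h3 : (C ((-1 : ℂ) ^ d) : ℂ⟦X⟧) ≠ 0 := by
      rw [Ne, map_eq_zero_iff _ PowerSeries.C_injective]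
      exact pow_ne_zero _ (by norm_num)
    exact mul_ne_zero h3 (pow_ne_zero _ (pow_ne_zero _ hD0)) h2
  refine ⟨∑ s ∈ Finset.range (d + 1), Polynomial.monomial (12 * s) (p s * δ ^ (k * (d - s))),
    ?_, ?_⟩
  · intro h
    have h2 := congrArg (fun P => Polynomial.coeff P (12 * d)) h
    simp only [Polynomial.finsetSum_coeff, Polynomial.coeff_monomial, Polynomial.coeff_zero] at h2
    rw [Finset.sum_eq_single d] at h2
    · rw [if_pos rfl, Nat.sub_self, mul_zero, pow_zero, mul_one] at h2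
      exact hpd h2
    · intro b _ hb
      rw [if_neg]
      omega
    · intro h3
      exact absurd (Finset.mem_range.2 (Nat.lt_succ_self d)) h3
  · have h2 := congrArg (qExpansion 1) hM1
    rw [qExpansion_zero, qe_sum] at h2
    · refine ((mul_eq_zero (a := upc w ^ (24 * k * d))).1 ?_).resolve_left (pow_ne_zero _ hW0)
      rw [← h2, Polynomial.eval₂_finsetSum, Finset.mul_sum]
      refine Finset.sum_congr rfl fun s hs => ?_
      have hsd : s ≤ d := Nat.lt_succ_iff.1 (Finset.mem_range.1 hs)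
      rw [Polynomial.eval₂_monomial,
        qExpansion_mul (an_mul (hMa s) (an_pow (an_pow hf 12) s)) (an_pow (an_pow hDel k) _),
        qExpansion_mul (hMa s) (an_pow (an_pow hf 12) s), qe_pow (an_pow hf 12),
        qe_pow hf, qe_pow (an_pow hDel k), qe_pow hDel, hp s, hδ]
      have e1 : (Polynomial.aeval (upc u) : Polynomial ℂ →ₐ[ℂ] ℂ⟦X⟧).toRingHom
          (p s * δ ^ (k * (d - s))) = Polynomial.aeval (upc u) (p s) *
          Polynomial.aeval (upc u) δ ^ (k * (d - s)) := by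
        change Polynomial.aeval (upc u) (p s * δ ^ (k * (d - s))) = _
        rw [map_mul, map_pow]
      rw [e1]
      have e2 : (upc w) ^ (24 * k * d) = upc w ^ (12 * k * d) *
          (upc w ^ (12 * k * (d - s)) * (upc w ^ k) ^ (12 * s)) := by
        rw [← pow_mul, ← pow_add, ← pow_add]
        congr 1
        obtain ⟨t, rfl⟩ := Nat.exists_eq_add_of_le hsd
        rw [Nat.add_sub_cancel_left]
        ring
      have e3 : (upc w ^ k) ^ (12 * s) * (qExpansion 1 f * upc wi ^ k) ^ (12 * s) =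
          (qExpansion 1 f ^ 12) ^ s := by
        rw [← mul_pow]
        have : upc w ^ k * (qExpansion 1 f * upc wi ^ k) = qExpansion 1 f * (upc w * upc wi) ^ k := by
          rw [mul_pow]
          ring
        rw [this, hW1, one_pow, mul_one, ← pow_mul]
      have e4 : ((upc w ^ 12 * Polynomial.aeval (upc u) δ) ^ k) ^ (d - s) =
          upc w ^ (12 * k * (d - s)) * Polynomial.aeval (upc u) δ ^ (k * (d - s)) := by
        rw [← pow_mul, mul_pow, ← pow_mul]
        congr 2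
        ring
      rw [e4, ← e3, e2]
      ring
    · intro s _
      exact an_mul (an_mul (hMa s) (an_pow (an_pow hf 12) s)) (an_pow (an_pow hDel k) _)

end Run7.h333.GEN
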